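import Pool.Agent.helper74.SchTop

set_option autoImplicit false

/-!
# Spec A for MP_bfc607_gt, how many members of a cover may a point miss

Each row `XXX` asks for `theorem XXX : XXX_stmt` or, when the docstring lists other rows, for
`theorem XXX (h1 : AAA_stmt) (h2 : BBB_stmt) : XXX_stmt` (the listed rows in this order as hypotheses).
File `Pool/Agent/<seat>/MM/XXX.lean`, importing this file, namespace `Pool.Agent.MM`.
-/

namespace Pool.Agent.MM

open Pool.Agent.Scheepers Filter Topology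

/-- `C_p(E)` satisfies `S_1(Gamma_0, Gamma_0)`. -/
def S1G (E : Type) [TopologicalSpace E] : Prop :=
  ∀ A : ℕ → Set C(E, ℝ),
    (∀ n, (A n).Infinite ∧ (A n).Countable ∧ (0 : C(E, ℝ)) ∉ A n ∧
      ∀ x : E, ∀ ε : ℝ, 0 < ε → {f ∈ A n | ε ≤ |f x|}.Finite) →
    ∃ g : ℕ → C(E, ℝ), (∀ n, g n ∈ A n) ∧ (Set.range g).Infinite ∧
      ∀ x : E, ∀ ε : ℝ, 0 < ε → {f ∈ Set.range g | ε ≤ |f x|}.Finite

/-! ## Part 1: the ZFC theorem -/

/-- Row SEQ (no hypotheses).  Selection for sequences of functions.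
Proof.  If `E` is empty take any `κ`.  Let `x₀ : E`, `F n i = |f n i| + 1 / (i + 1)`, a positive function; `F n i x → 0`.
Choose `i₀ n` with `F n i x₀ < 1 / (n + 1)` for all `i ≥ i₀ n`, `A n = {F n i | i ≥ i₀ n}`.  `A n` is infinite: the values at
`x₀` are positive and tend to `0` (a finite set of positive reals has a positive minimum).  It is countable, `0 ∉ A n`, and
`{f ∈ A n | ε ≤ |f x|}` is the image of a finite set of indices.  Apply `h` and let `g n = F n (κ n)`.  A function `u` of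
`Set.range g` has `u x₀ > 0`, so it is `g n` for finitely many `n` only (`g n x₀ < 1 / (n + 1)`).  Hence
`{n | ε ≤ |g n x|}` is a finite union of finite sets, so `g n x → 0`, and `|f n (κ n) x| ≤ g n x`. -/
def SEQ_stmt : Prop :=
  ∀ (E : Type) [TopologicalSpace E], S1G E → ∀ f : ℕ → ℕ → C(E, ℝ),
    (∀ n x, Tendsto (fun i => f n i x) atTop (𝓝 0)) →
    ∃ κ : ℕ → ℕ, ∀ x, Tendsto (fun n => f n (κ n) x) atTop (𝓝 0)

/-- Row SEC (hypothesis SEQ).  The same on a closed subset.
Proof.  Extend `f n i` to `G n i : C(E, ℝ)` with `|G n i| ≤ 1` (Tietze: `ContinuousMap.exists_restrict_eq...` or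
`BoundedContinuousFunction.exists_norm_eq_restrict_eq_of_closed`), multiply by `max 0 (1 - i * infDist x C)` (if `C` is
empty the claim is trivial).  On `C` nothing changes, outside `C` the product vanishes for large `i`.  Apply SEQ. -/
def SEC_stmt : Prop :=
  ∀ (E : Type) [MetricSpace E], S1G E → ∀ C : Set E, IsClosed C → ∀ f : ℕ → ℕ → C(↥C, ℝ),
    (∀ n i x, |f n i x| ≤ 1) → (∀ n x, Tendsto (fun i => f n i x) atTop (𝓝 0)) →
    ∃ κ : ℕ → ℕ, ∀ x, Tendsto (fun n => f n (κ n) x) atTop (𝓝 0)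

/-- Row MGR (hypothesis SEC).  Continuous images in the Cantor space of closed subsets are meager.
Proof.  Let `σ n : ℕ × (ℕ → Bool)` (or another code of basic clopen sets `{y | ∀ e < L, y e = s e}`) run through a
countable set of codes of all cylinders, each one infinitely often.  `W n i` = the points `y` of the `n`-th cylinder
(length `L`) with `y (L + e) = false` for `e < i` and `y (L + i) = true`.  These are clopen and for fixed `n` pairwise
disjoint, so the indicator functions `f n i` of `φ ⁻¹' W n i` satisfy the hypotheses of SEC.  Get `κ`.  Then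
`range φ ⊆ ⋃ m, {y | ∀ n ≥ m, y ∉ W n (κ n)}`, these sets are closed and contain no cylinder (a given cylinder is the `n`-th
one for some `n ≥ m`), so they are nowhere dense. -/
def MGR_stmt : Prop :=
  ∀ (E : Type) [MetricSpace E], S1G E → ∀ C : Set E, IsClosed C → ∀ φ : ↥C → (ℕ → Bool),
    Continuous φ → IsMeagre (Set.range φ)

/-- Row PFS (no hypotheses).  The complement of a meager set of the Cantor space contains a copy of the Cantor space.
Proof 1.  The complement contains a dense `Gδ` set `⋂ m, O m`.  The set of pairs `(y, s)`, `s : ℕ → ℕ`, such that for all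
`m` the cylinder `{v | ∀ e < s m, v e = y e}` is contained in `O m` and `s m` is minimal with this property, is closed in the
Polish space `(ℕ → Bool) × (ℕ → ℕ)`; it is not countable, since its projection `⋂ m, O m` is not (a countable set of
the Cantor space is meager, Baire).  Use `IsClosed.exists_nat_bool_injection_of_not_countable` and project.
Proof 2 (direct).  Nowhere dense closed sets `N m`, increasing; choose blocks and strings `s j` on the block `j` such
that no point which equals `s j` on block `j` is in `N j`; take the points equal to `s j` on the even blocks, arbitrary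
on the odd ones. -/
def PFS_stmt : Prop :=
  ∀ Z : Set (ℕ → Bool), IsMeagre Z → ∃ j : (ℕ → Bool) → (ℕ → Bool),
    Continuous j ∧ Function.Injective j ∧ ∀ y, j y ∉ Z

/-- Row PRJ (no hypotheses).  Projection along the compact space (`isClosedMap_fst_of_compactSpace` or similar). -/
def PRJ_stmt : Prop :=
  ∀ (E : Type) [TopologicalSpace E] (R : Set (E × (ℕ → Bool))), IsClosed R → ∀ B : Set (ℕ → Bool),
    IsClosed B → IsClosed {x | ∃ y ∈ B, (x, y) ∈ R}

/-- Row UNQ (hypothesis PRJ).  A closed graph with compact values defines a continuous function: the preimage of a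
closed set `A` under `φ` is `{x ∈ C | ∃ y ∈ A ∩ B, (x, y) ∈ R}`. -/
def UNQ_stmt : Prop :=
  ∀ (E : Type) [TopologicalSpace E] (R : Set (E × (ℕ → Bool))), IsClosed R → ∀ B : Set (ℕ → Bool),
    IsClosed B → ∀ C : Set E, (∀ x ∈ C, ∃! y, y ∈ B ∧ (x, y) ∈ R) →
    ∃ φ : ↥C → (ℕ → Bool), Continuous φ ∧ ∀ x : ↥C, φ x ∈ B ∧ (x.1, φ x) ∈ R

/-- The values of an increasing sequence of relations. -/
def Dv {E : Type} (R : ℕ → Set (E × (ℕ → Bool))) (x : E) : Set (ℕ → Bool) := {y | ∃ m, (x, y) ∈ R m}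

/-- Row ZMG (hypotheses MGR, PRJ, UNQ).  The values at points with the maximal number of values form a meager set.
Proof.  For `m L : ℕ` and pairwise different strings `s : Fin (K + 1) → (Fin L → Bool)` let
`C = {x | ∀ i, ∃ y ∈ [s i], (x, y) ∈ R m}`, closed by PRJ.  For `x ∈ C` the set `Dv R x` has at most `K + 1` points and meets the
pairwise disjoint cylinders `[s i]`, so it meets each of them in exactly one point, which is in `R m`.  UNQ gives
continuous `φ_i` on `C`, with meager range by MGR.  If `y ∈ Dv R x` and `Dv R x` has `K + 1` points `y_0, ..., y_K` choose `m`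
with all `(x, y_i) ∈ R m` (`R` is monotone) and `L` separating them: `y = y_i = φ_i x` for some `i`.  So the set is
contained in a countable union of meager sets (`isMeagre_iUnion`). -/
def ZMG_stmt : Prop :=
  ∀ (E : Type) [MetricSpace E], S1G E → ∀ K : ℕ, ∀ R : ℕ → Set (E × (ℕ → Bool)),
    (∀ m, IsClosed (R m)) → Monotone R → (∀ x, (Dv R x).encard ≤ ((K + 1 : ℕ) : ℕ∞)) →
    IsMeagre {y | ∃ x, y ∈ Dv R x ∧ (Dv R x).encard = ((K + 1 : ℕ) : ℕ∞)}

/-- Row IND (hypotheses ZMG, PFS).  Some point is not a value.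
Proof.  Induction on `K`, for all `R`.  `K = 0`: any `y`.  Step: let `Z` be the set of ZMG, `j` from PFS,
`R' m = {(x, y) | (x, j y) ∈ R m}`, closed and monotone.  If `Dv R x` has `K + 1` points then `Dv R x ⊆ Z`, so `Dv R' x` is
empty; otherwise `Dv R' x` has at most as many points as `Dv R x`, so at most `K`.  The point `y` for `R'` gives `j y`. -/
def IND_stmt : Prop :=
  ∀ (E : Type) [MetricSpace E], S1G E → ∀ K : ℕ, ∀ R : ℕ → Set (E × (ℕ → Bool)),
    (∀ m, IsClosed (R m)) → Monotone R → (∀ x, (Dv R x).encard ≤ (K : ℕ∞)) →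
    ∃ y : ℕ → Bool, ∀ x m, (x, y) ∉ R m

/-- Row HSH (no hypotheses).  Separating functions.
Proof.  Let `c j` run through all pairs `(L, s)`, `s : Fin (K + 1) → (Fin L → Bool)`, each one infinitely often (a surjection
from `ℕ` composed with `fun j => (Nat.unpair j).1`).  `g j y = i` if `y` restricted to `L` is `s i` and `i` is the least index
with this property, `g j y = 0` if there is none.  For pairwise different `y i` choose `L` such that their
restrictions to `L` are pairwise different. -/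
def HSH_stmt : Prop :=
  ∀ K : ℕ, ∃ g : ℕ → (ℕ → Bool) → Fin (K + 1), (∀ j i, IsClopen {y | g j y = i}) ∧
    ∀ y : Fin (K + 1) → (ℕ → Bool), Function.Injective y → ∀ m, ∃ j, m ≤ j ∧ ∀ i, g j (y i) = i

/-- Row TWO (hypotheses IND, HSH).  The ZFC theorem.
Proof.  Let `n j` enumerate increasingly the infinite set of good indices (`Nat.nth` or `Nat.orderEmbeddingOfSet`), let
`u j : Fin (K + 1) → Set E` be injective with values in `𝒰 (n j)`, `R m = {(x, y) | ∀ j ≥ m, x ∉ u j (g j y)}`.  It is closed: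
for each `j` the set is the union over `i` of `{x | x ∉ u j i} ×ˢ {y | g j y = i}`.  Monotone is clear.  If `Dv R x` had `K + 1`
different points `y i` then there is `m` with all `(x, y i) ∈ R m`, and `j ≥ m` with `g j (y i) = i` for all `i`: then `x` is in
none of the `K + 1` different sets `u j i`.  IND gives `y`; put `V (n j) = u j (g j y)` and any member for the other indices. -/
def TWO_stmt : Prop :=
  ∀ (E : Type) [MetricSpace E], S1G E → ∀ (K : ℕ) (𝒰 : ℕ → Set (Set E)),
    (∀ n, ∀ U ∈ 𝒰 n, IsOpen U) → (∀ n, (𝒰 n).Nonempty) →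
    {n | (K : ℕ∞) < (𝒰 n).encard ∧ ∀ x, {U ∈ 𝒰 n | x ∉ U}.encard ≤ (K : ℕ∞)}.Infinite →
    ∃ V : ℕ → Set E, (∀ n, V n ∈ 𝒰 n) ∧ ∀ x, {n | x ∈ V n}.Infinite

/-! ## Part 2: parts of the CH theorems which do not need the forcing -/

/-- Selection property of a set of points of the Cantor space. -/
def SelSet (X : Set (ℕ → Bool)) : Prop :=
  ∀ (W : ℕ → ℕ → Set (ℕ → Bool)) (b : ℕ → ℕ → ℕ), (∀ n k, Supp (b n k) (W n k)) →
    (∀ n, ∀ x ∈ X, ∃ k0, ∀ k, k0 ≤ k → x ∉ W n k) →
    ∃ κ : ℕ → ℕ, ∀ x ∈ X, ∃ n0, ∀ n, n0 ≤ n → x ∉ W n (κ n)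

/-- Row COC (no hypotheses).  Complements of countable sets.
Proof.  Let `c a` enumerate `C` (if `C` is empty the claim is trivial) and let `q a` enumerate the countable set
`(X \ ⋃ J, K J) \ C` (if it is empty use no `q`).  For `a ≤ k` there is `m` such that no point agreeing with `c a` below `m` is
in the closed set `K k` or equal to one of `q 0, ..., q k` (`c a` is in the open complement of this closed set;
`Pool.Agent.Scheepers.exists_cyl`).  Let `Vk` be the set of the points which agree with no `c a`, `a ≤ k`, below the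
corresponding `m`; it has finite support.  `W' n k = W n (k + n) ∩ V (k + n)`: converges on `X \ C` since `W` does, and on `C`
since `c a ∉ V k` for `k ≥ a`.  Get `κ` on `X`; `κ n + n` works for `W` on `X \ C`, since each of its points is in `V k` for all
large `k` (it is in some `K J`, `K` is monotone, or it is some `q a`). -/
def COC_stmt : Prop :=
  ∀ X C : Set (ℕ → Bool), C.Countable → SelSet X → ∀ K : ℕ → Set (ℕ → Bool), (∀ J, IsClosed (K J)) →
    Monotone K → (∀ J, Disjoint C (K J)) → (X \ ⋃ J, K J).Countable → SelSet (X \ C)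

/-- Row TRA (no hypotheses).  From the Cantor space to the irrationals.
Proof.  As in `Pool.Agent.Scheepers.transfer` (read it): `f` from `exists_cantor_irrational`, `Y = f '' X`, `φ` the inverse of
`f`.  For `Z ⊆ Y` with countable `Y \ Z` let `C = f ⁻¹' (Y \ Z) ∩ X`, countable since `f` is injective; the restriction of `φ` to `Z` has
range `X \ C`, it is inducing, and `cp_select` gives `S1G ↥Z`. -/
def TRA_stmt : Prop :=
  ∀ X : Set (ℕ → Bool), (∀ C : Set (ℕ → Bool), C.Countable → SelSet (X \ C)) →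
    ∃ Y : Set ℝ, Y ⊆ {x : ℝ | Irrational x} ∧ (∀ Z : Set ℝ, Z ⊆ Y → (Y \ Z).Countable → S1G ↥Z) ∧
      ∃ φ : ↥Y → (ℕ → Bool), IsInducing φ ∧ Function.Injective φ ∧ Set.range φ = X

/-- Row FIA (hypothesis TRA).  The covers of the first CH theorem: `𝒰 n` = all sets `{y | φ y ∉ F (n, m)}`.
(Infinite: `{U ∈ 𝒰 n | x ∉ U}` is finite for each `x` and no member is everything, as in `transfer`; the misses of `y` are the
image of `{m | φ y ∈ F (n, m)}`; no cover: `h` chosen from `V n ∈ 𝒰 n`.) -/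
def FIA_stmt : Prop :=
  ∀ (k : ℕ → ℕ) (X : Set (ℕ → Bool)), (∀ z ∈ X, ∀ n, {m | z ∈ F (n, m)}.encard ≤ (k n : ℕ∞)) →
    (∀ h : ℕ → ℕ, ∃ x ∈ X, ∀ n, x ∈ F (n, h n)) →
    (∀ C : Set (ℕ → Bool), C.Countable → SelSet (X \ C)) →
    ∃ Y : Set ℝ, Y ⊆ {x : ℝ | Irrational x} ∧ (∀ Z : Set ℝ, Z ⊆ Y → (Y \ Z).Countable → S1G ↥Z) ∧
      ∃ 𝒰 : ℕ → Set (Set ↥Y),
        (∀ n, (𝒰 n).Infinite ∧ (∀ U ∈ 𝒰 n, IsOpen U) ∧ (Set.univ : Set ↥Y) ∉ 𝒰 n ∧
          ∀ x : ↥Y, {U ∈ 𝒰 n | x ∉ U}.encard ≤ (k n : ℕ∞)) ∧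
        ∀ V : ℕ → Set ↥Y, (∀ n, V n ∈ 𝒰 n) → (⋃ n, V n) ≠ Set.univ

/-- Row FIB (hypothesis TRA).  The covers of the second CH theorem (again `{y | φ y ∉ F (n, m)}`).  The sets for different
`(n, m)` are different by the third hypothesis. -/
def FIB_stmt : Prop :=
  ∀ X : Set (ℕ → Bool), (∀ z ∈ X, ∀ n m m', z ∈ F (n, m) → z ∈ F (n, m') → m = m') →
    (∀ h : ℕ → ℕ, ∃ x ∈ X, {n | x ∈ F (n, h n)}.Infinite) →
    (∀ w : ℕ × ℕ, ∃ x ∈ X, ∀ w', x ∈ F w' ↔ w' = w) →
    (∀ C : Set (ℕ → Bool), C.Countable → SelSet (X \ C)) →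
    ∃ Y : Set ℝ, Y ⊆ {x : ℝ | Irrational x} ∧ (∀ Z : Set ℝ, Z ⊆ Y → (Y \ Z).Countable → S1G ↥Z) ∧
      ∃ 𝒰 : ℕ → Set (Set ↥Y),
        (∀ n, (𝒰 n).Infinite ∧ (∀ U ∈ 𝒰 n, IsOpen U) ∧ (Set.univ : Set ↥Y) ∉ 𝒰 n ∧
          ∀ U ∈ 𝒰 n, ∀ U' ∈ 𝒰 n, U ≠ U' → U ∪ U' = Set.univ) ∧
        ∀ V : ℕ → Set ↥Y, (∀ n, V n ∈ 𝒰 n) → ∃ x : ↥Y, {U ∈ Set.range V | x ∉ U}.Infinite

/-- The data of the forcing: the admissible sets of places of size `N` and the class `P` of points. -/
structure Sys where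
  V : ℕ → Set (Set (ℕ × ℕ))
  P : Set (ℕ → Bool)
  mono : ∀ N M, N ≤ M → V N ⊆ V M
  out : ∀ N, ∀ t ∈ V N, ∃ w : ℕ × ℕ, w.1 ≤ N ∧ w.2 ≤ N ∧ w ∉ t
  lim : ∀ N, ∀ (U : Ultrafilter ℕ) (t : ℕ → Set (ℕ × ℕ)), (∀ i, t i ∈ V N) →
    {w | ∀ᶠ i in (U : Filter ℕ), w ∈ t i} ∈ V N
  union : ∀ N, ∀ (U : Ultrafilter ℕ) (t : ℕ → Set (ℕ × ℕ)), (∀ i, t i ∈ V N) →
    ∀ᶠ i in (U : Filter ℕ), {w | ∀ᶠ i in (U : Filter ℕ), w ∈ t i} ∪ t i ∈ V (2 * N)
  inP : ∀ N, ∀ t ∈ V N, ∀ z : ℕ → Bool, (∀ w, w ∉ t → z ∉ F w) → z ∈ P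
  excl : ∀ N, ∃ N', N ≤ N' ∧ ∀ t ∈ V N, ∀ Q : Set (ℕ × ℕ),
    (∃ w ∈ Q, insert w t ∈ V N') ∨ ∃ w, w ∉ Q ∧ w ∉ t ∧ w.1 ≤ N' ∧ w.2 ≤ N'

/-- Row SYA (no hypotheses).  The system of the first CH theorem.
Proof.  `mono`, `out` (row `0` has at most `N` points in `t`, so some `(0, m)`, `m ≤ N`, is outside) and `lim` (a finite subset of
the limit is contained in some `t i`) as for `Val` in `Pool.Agent.helper74.SchCore` and the proof of `Cond.main`.
`union`: choose `M` with `2 * N ≤ k n` for `n ≥ M`.  For `n < M` the row `n` of the limit is finite, so it is contained in `t i`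
for almost all `i`, and the row of the union is the row of `t i`; for `n ≥ M` it has at most `2 * N = min (2 * N) (k n)`
points.  `inP`: the row `n` of `z` is contained in that of `t`.  `excl`: let `M` be such that `N + 1 ≤ k n` for `n ≥ M`,
`N' = max (N + 1) M`.  If no `w ∈ Q` has `insert w t ∈ V N'` then no `w ∈ Q` is in row `M` (the new row has at most
`N + 1 ≤ min N' (k M)` points) nor in `t`; take `w = (M, m) ∉ t` with `m ≤ N`. -/
def SYA_stmt : Prop :=
  ∀ k : ℕ → ℕ, Tendsto k atTop atTop → ∃ S : Sys,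
    (∀ N, S.V N = {t | ∀ n, ∀ s : Finset ℕ, (∀ m ∈ s, (n, m) ∈ t) → s.card ≤ min N (k n)}) ∧
    S.P = {z | ∀ n, {m | z ∈ F (n, m)}.encard ≤ (k n : ℕ∞)}

/-- Row SYB (no hypotheses).  The system of the second CH theorem.
Proof.  `union`: the limit `tt` is finite, so it is contained in `t i` for almost all `i`, and the union is `t i`.
`excl`: `N' = N + 1`; the set `t` meets at most `N` rows, so some row `r ≤ N` is free.  If some `w ∈ Q` is in `t` or in a row not
met by `t` then `insert w t ∈ V (N + 1)`; otherwise `w = (r, 0)` is not in `Q`. -/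
def SYB_stmt : Prop :=
  ∃ S : Sys,
    (∀ N, S.V N = {t | (∀ s : Finset (ℕ × ℕ), ↑s ⊆ t → s.card ≤ N) ∧
      ∀ n m m', (n, m) ∈ t → (n, m') ∈ t → m = m'}) ∧
    S.P = {z | ∀ n m m', z ∈ F (n, m) → z ∈ F (n, m') → m = m'}

end Pool.Agent.MM
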