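import Pool.Agent.helper91.MM.SpecA

set_option autoImplicit false

/-!
# Spec B for MP_bfc607_gt: the forcing

The rows repeat the files `Pool/Agent/helper74/SchCore.lean`, `SchMain.lean`, `SchOrder.lean`, `SchRec.lean` (read them first)
with `t ∈ S.V N` in place of `Val N t` and `S.P` in place of `P2`, for an arbitrary system `S : Sys` (Spec A).
Copy the proofs and change what is said in the docstrings.
-/

namespace Pool.Agent.MM

open Pool.Agent.Scheepers Filter Topology Cardinal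

/-- `N`-largeness of a set of patterns on the block `[l, r)`. -/
def Lg (S : Sys) (N : ℕ) (B : Set (ℕ → Bool)) (l r : ℕ) : Prop :=
  ∀ t ∈ S.V N, ∀ w : ℕ × ℕ, w.1 ≤ N → w.2 ≤ N → w ∉ t →
    ∃ u ∈ B, (∀ e, l ≤ e → e < r → pos e ∈ t → u e = false) ∧
      ∃ e, l ≤ e ∧ e < r ∧ pos e = w ∧ u e = true

/-- Conditions: block sequences of patterns. -/
structure Cnd (S : Sys) where
  a : ℕ → ℕ
  A : ℕ → Set (ℕ → Bool)
  mono : StrictMono a
  loc : ∀ j u v, (∀ e, a j ≤ e → e < a (j + 1) → u e = v e) → u ∈ A j → v ∈ A j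
  large : ∀ N, ∃ J, ∀ j, J ≤ j → Lg S N (A j) (a j) (a (j + 1))

namespace Cnd

variable {S : Sys}

/-- The points of a condition. -/
def star (p : Cnd S) : Set (ℕ → Bool) := {z | ∃ J, ∀ j, J ≤ j → z ∈ p.A j}

/-- Patterns allowed between two cut points. -/
def R (p : Cnd S) (d d' : ℕ) : Set (ℕ → Bool) :=
  {z | ∀ j, d ≤ p.a j → p.a (j + 1) ≤ d' → z ∈ p.A j}

/-- `q` refines `p` from some point on. -/
def le (q p : Cnd S) : Prop :=
  ∃ M, ∀ i, M ≤ q.a i → q.a i ∈ Set.range p.a ∧ q.A i ⊆ p.R (q.a i) (q.a (i + 1))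

/-- The patterns on `[a J, a l)` allowed by `p` and avoiding `W`. -/
def blk (p : Cnd S) (W : Set (ℕ → Bool)) (J l : ℕ) : Set (ℕ → Bool) :=
  {u | (∀ j, J ≤ j → j < l → u ∈ p.A j) ∧
    ∀ v : ℕ → Bool, (∀ e, p.a J ≤ e → e < p.a l → v e = u e) → v ∉ W}

end Cnd

/-- Row XBK (no hypotheses).  `Cond.exists_block` and `Cond.block_unique` (same proofs). -/
def XBK_stmt : Prop :=
  ∀ (S : Sys) (p : Cnd S), (∀ J e, p.a J ≤ e → ∃ j, J ≤ j ∧ p.a j ≤ e ∧ e < p.a (j + 1)) ∧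
    ∀ i j e, p.a i ≤ e → e < p.a (i + 1) → p.a j ≤ e → e < p.a (j + 1) → i = j

/-- Row BLD (hypothesis XBK).  `Cond.glue` and `Cond.build` (same proofs; `Val.exists_not_mem` is `S.out`, `mono` is `S.mono`). -/
def BLD_stmt : Prop :=
  ∀ (S : Sys) (p : Cnd S) (N J : ℕ), (∀ j, J ≤ j → Lg S N (p.A j) (p.a j) (p.a (j + 1))) →
    ∀ T : ℕ → Set (ℕ × ℕ), (∀ j, J ≤ j → T j ∈ S.V N) → ∀ (x : ℕ → ℕ × ℕ) (s : ℕ → Bool),
    ∃ z : ℕ → Bool, (∀ e, e < p.a J → z e = s e) ∧ ∀ j, J ≤ j → z ∈ p.A j ∧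
      (∀ e, p.a j ≤ e → e < p.a (j + 1) → pos e ∈ T j → z e = false) ∧
      (∀ M, N ≤ M → (x j).1 ≤ M → (x j).2 ≤ M → x j ∉ T j →
        Lg S M (p.A j) (p.a j) (p.a (j + 1)) →
        ∃ e, p.a j ≤ e ∧ e < p.a (j + 1) ∧ pos e = x j ∧ z e = true)

/-- Row MAJ (hypotheses XBK, BLD).  `Cond.main` of `SchMain`.  Changes: the limit `tt` of the sets `t i` is in `S.V N` by
`S.lim`; in `hstep` choose `m'` with moreover `tt ∪ t m' ∈ S.V (2 * N)` (`S.union`, an eventual property of the ultrafilter), so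
`T j = tt ∪ t (idx (rr j))` is in `S.V (2 * N)` for all `j` (`idx r` is always a value of `f`); `zz ∈ S.P` by `S.inP` with `tt`. -/
def MAJ_stmt : Prop :=
  ∀ (S : Sys) (p : Cnd S) (N J : ℕ), (∀ j, J ≤ j → Lg S (2 * N) (p.A j) (p.a j) (p.a (j + 1))) →
    ∀ (W : ℕ → Set (ℕ → Bool)) (b : ℕ → ℕ), (∀ k, Supp (b k) (W k)) →
    (∀ z ∈ p.star, z ∈ S.P → ∃ k0, ∀ k, k0 ≤ k → z ∉ W k) →
    ∃ k0, ∀ k, k0 ≤ k → ∀ l0, ∃ l, l0 ≤ l ∧ Lg S N (p.blk (W k) J l) (p.a J) (p.a l)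

/-- Row ORD (hypothesis XBK).  `le_refl`, `le_trans`, `star_sub` of `SchOrder` (with `R_loc`, `R_sub`; same proofs). -/
def ORD_stmt : Prop :=
  ∀ S : Sys, (∀ p : Cnd S, p.le p) ∧ (∀ r q p : Cnd S, r.le q → q.le p → r.le p) ∧
    ∀ q p : Cnd S, q.le p → q.star ⊆ p.star

/-- Row FUZ (hypothesis MAJ).  `Cond.fusion` (same proof). -/
def FUZ_stmt : Prop :=
  ∀ (S : Sys) (p : Cnd S) (W : ℕ → ℕ → Set (ℕ → Bool)) (b : ℕ → ℕ → ℕ),
    (∀ n k, Supp (b n k) (W n k)) →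
    (∀ n, ∀ z ∈ p.star, z ∈ S.P → ∃ k0, ∀ k, k0 ≤ k → z ∉ W n k) →
    ∀ c : ℕ → (ℕ → Bool), (∀ i n, ∃ k0, ∀ k, k0 ≤ k → c i ∉ W n k) →
    ∃ q : Cnd S, q.le p ∧ ∃ κ : ℕ → ℕ,
      (∀ z ∈ q.star, ∃ n0, ∀ n, n0 ≤ n → z ∉ W n (κ n)) ∧
      ∀ i, ∃ n0, ∀ n, n0 ≤ n → c i ∉ W n (κ n)

/-- Row LWR (hypotheses XBK, BLD, ORD).  `Cond.exists_lower` (with `large_R` and `R_sub`; same proofs). -/
def LWR_stmt : Prop :=
  ∀ (S : Sys) (p : ℕ → Cnd S), (∀ n, (p (n + 1)).le (p n)) → ∃ q : Cnd S, ∀ n, q.le (p n)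

/-- Row NEM (no hypotheses).  `Cond.nonempty` (same proof). -/
def NEM_stmt : Prop := ∀ S : Sys, Nonempty (Cnd S)

/-- Row EXC (hypotheses XBK, BLD).  Exclusion of a point.
Proof.  `q.a j = p.a (2 * j)`, `q.A j` = the `u` in `p.A (2 * j)` and in `p.A (2 * j + 1)` such that `u e ≠ c e` for some `e` with
`p.a (2 * j + 1) ≤ e < p.a (2 * j + 2)`.  Then `q.le p`, and `c ∉ q.star` since `c ∉ q.A j` for all `j`.
Largeness for `N`: take `N'` from `S.excl N` and `J` such that `p.A j` is `N'`-large for `j ≥ J`; let `2 * j ≥ J`, `t ∈ S.V N`, `w ∉ t`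
small.  Let `Q` be the set of the `pos e` with `e` in the block `2 * j + 1` and `c e = true`.  If `w' ∈ Q` and
`insert w' t ∈ S.V N'`, take (with `S.out` for `insert w' t`) a pattern `u'` of the block `2 * j + 1` vanishing on
`insert w' t`: it differs from `c` at the `e` with `pos e = w'`, `c e = true`.  Otherwise there is `w' ∉ Q`, `w' ∉ t` with
coordinates at most `N'`: take `u'` vanishing on `t` and nonzero at some `e` with `pos e = w'`; there `c e = false`.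
In the block `2 * j` take a pattern `u` for `(t, w)`.  Glue: the function equal to `u` below `p.a (2 * j + 1)` and to `u'` from
there on is in `q.A j` by `loc` and shows largeness.  (BLD is not really needed.) -/
def EXC_stmt : Prop :=
  ∀ (S : Sys) (p : Cnd S) (c : ℕ → Bool), ∃ q : Cnd S, q.le p ∧ c ∉ q.star

/-- Row PTA (hypotheses XBK, BLD).  `Cond.exists_point` (same proof; the graph of `h` is in `S.V 1` since `1 ≤ k n`;
`S.P` by `S.inP`). -/
def PTA_stmt : Prop :=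
  ∀ (k : ℕ → ℕ), (∀ n, 1 ≤ k n) → ∀ S : Sys,
    (∀ N, S.V N = {t | ∀ n, ∀ s : Finset ℕ, (∀ m ∈ s, (n, m) ∈ t) → s.card ≤ min N (k n)}) →
    ∀ (p : Cnd S) (h : ℕ → ℕ), ∃ z ∈ p.star, z ∈ S.P ∧ ∀ n, z ∈ F (n, h n)

/-- Row PTB (hypotheses XBK, BLD).  Points of the second system.
First part.  Here `build` has to be repeated with `T j ∈ S.V (N j)`, where `N j` is unbounded: choose `J i` strictly
increasing such that `p.A j` is `i + 1`-large for `j ≥ J i`, and `n i = p.a (J i)` (strictly increasing; every coordinate `e` with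
`(pos e).1 = n` satisfies `n ≤ e`).  Let `t = {(n i, h (n i)) | i ≥ 0}` and for a block `j` with `J i ≤ j < J (i + 1)` let
`T j = {(n i', h (n i')) | i' ≤ i} ∈ S.V (i + 1)`.  Glue patterns `u j` (`j ≥ J 0`) which vanish on `T j` and do not vanish on `pos j`
if `pos j ∉ t` and both coordinates of `pos j` are at most `i + 1`; below `p.a (J 0)` the value is `false`.  The point
vanishes on each `(n i, h (n i))`: the coordinates attached to it are `≥ n i = p.a (J i)`.  It does not vanish on `w ∉ t`: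
there are arbitrarily large `j` with `pos j = w`.  For membership in `S.P` use the description of `S.P`.
Second part: `T j = {w}` for all `j`, BLD with `N = 1`, `x j = pos j`, `s = fun _ => false`. -/
def PTB_stmt : Prop :=
  ∀ S : Sys,
    (∀ N, S.V N = {t | (∀ s : Finset (ℕ × ℕ), ↑s ⊆ t → s.card ≤ N) ∧
      ∀ n m m', (n, m) ∈ t → (n, m') ∈ t → m = m'}) →
    S.P = {z | ∀ n m m', z ∈ F (n, m) → z ∈ F (n, m') → m = m'} →
    ∀ p : Cnd S, (∀ h : ℕ → ℕ, ∃ z ∈ p.star, z ∈ S.P ∧ {n | z ∈ F (n, h n)}.Infinite) ∧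
      ∀ w : ℕ × ℕ, ∃ z ∈ p.star, z ∈ S.P ∧ ∀ w', z ∈ F w' ↔ w' = w

/-- Row REZ (hypotheses ORD, FUZ, LWR, NEM, EXC, COC).  The recursion (`SchRec`, under CH).
Proof.  Tasks: `(ℕ → ℕ → Code) × ι × (ℕ → (ℕ → Bool))`; there are at most continuum many (`mk_task`).  Well order them with
countable initial segments (`Cardinal.exists_ord_eq`, `countable_of_lt` in the hand-in `SelectionUnderCH`); since `ι` is nonempty
and the tasks are uncountably many, and for each task value there is one.  States and `Step` as in `SchRec`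
with two changes: the first point satisfies `s.1 ∈ Q (i.2.1)` in place of `∀ n, s.1 ∈ F (n, h i n)`, and
`∀ n, i.2.2 n ∉ s.2.2.star` is added.  `step_exists`: first a lower bound `q0` of the history (`exists_lower_chain` from LWR), then
exclude the points `i.2.2 n` one after the other (EXC) and take a lower bound (LWR); then as in `SchRec` (FUZ with the
countably many earlier points as `c`).  `rec_exists` as there.
`X` = all first and second points.  Selection property of `X`: as in `exists_set`.  For a countable `C` let `i` be a task whose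
third component has range containing `C` (if `C` is empty this is `X` itself), `p` its condition,
`K J = {z | ∀ j ≥ J, z ∈ p.A j}` (closed, monotone, union `p.star`, disjoint from `C`); all points of later tasks are in
`p.star`, so `X \ p.star` is countable.  COC gives `SelSet (X \ C)`. -/
def REZ_stmt : Prop :=
  ∀ (S : Sys) (ι : Type) [Nonempty ι] (Q : ι → Set (ℕ → Bool)), #ι ≤ Cardinal.continuum.{0} →
    Cardinal.continuum.{0} = Cardinal.aleph.{0} 1 →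
    (∀ (p : Cnd S) (i : ι), ∃ z ∈ p.star, z ∈ S.P ∧ z ∈ Q i) →
    ∃ X : Set (ℕ → Bool), X ⊆ S.P ∧ (∀ i, ∃ x ∈ X, x ∈ Q i) ∧
      ∀ C : Set (ℕ → Bool), C.Countable → SelSet (X \ C)

/-- Row ONE (hypotheses FIA, SYA, PTA, REZ).  The first CH theorem (put together; `ι = ℕ → ℕ`). -/
def ONE_stmt : Prop :=
  Cardinal.continuum.{0} = Cardinal.aleph.{0} 1 → ∀ k : ℕ → ℕ, Tendsto k atTop atTop → (∀ n, 1 ≤ k n) →
    ∃ X : Set ℝ, X ⊆ {x : ℝ | Irrational x} ∧ (∀ Z : Set ℝ, Z ⊆ X → (X \ Z).Countable → S1G ↥Z) ∧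
      ∃ 𝒰 : ℕ → Set (Set ↥X),
        (∀ n, (𝒰 n).Infinite ∧ (∀ U ∈ 𝒰 n, IsOpen U) ∧ (Set.univ : Set ↥X) ∉ 𝒰 n ∧
          ∀ x : ↥X, {U ∈ 𝒰 n | x ∉ U}.encard ≤ (k n : ℕ∞)) ∧
        ∀ V : ℕ → Set ↥X, (∀ n, V n ∈ 𝒰 n) → (⋃ n, V n) ≠ Set.univ

/-- Row TRE (hypotheses FIB, SYB, PTB, REZ).  The second CH theorem (put together; `ι = (ℕ → ℕ) ⊕ (ℕ × ℕ)`). -/
def TRE_stmt : Prop :=
  Cardinal.continuum.{0} = Cardinal.aleph.{0} 1 →
    ∃ X : Set ℝ, X ⊆ {x : ℝ | Irrational x} ∧ (∀ Z : Set ℝ, Z ⊆ X → (X \ Z).Countable → S1G ↥Z) ∧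
      ∃ 𝒰 : ℕ → Set (Set ↥X),
        (∀ n, (𝒰 n).Infinite ∧ (∀ U ∈ 𝒰 n, IsOpen U) ∧ (Set.univ : Set ↥X) ∉ 𝒰 n ∧
          ∀ U ∈ 𝒰 n, ∀ U' ∈ 𝒰 n, U ≠ U' → U ∪ U' = Set.univ) ∧
        ∀ V : ℕ → Set ↥X, (∀ n, V n ∈ 𝒰 n) → ∃ x : ↥X, {U ∈ Set.range V | x ∉ U}.Infinite

end Pool.Agent.MM
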