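import Pool.Agent.helper17.MM.HSH
import Pool.Agent.helper17.MM.IND
import Pool.Agent.helper17.MM.PRJ
import Pool.Agent.helper17.MM.XBK
import Pool.Agent.helper17.MM.ZMG
import Pool.Agent.helper24.MM.BLD
import Pool.Agent.helper25.MM.PTA
import Pool.Agent.helper25.MM.SYB
import Pool.Agent.helper31.MM.PTB
import Pool.Agent.helper44.MM.PFS
import Pool.Agent.helper45.MM.TRE
import Pool.Agent.helper48.MM.TWO
import Pool.Agent.helper50.MM.EXC
import Pool.Agent.helper52.MM.LWR
import Pool.Agent.helper52.MM.UNQ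
import Pool.Agent.helper54.MM.REZ
import Pool.Agent.helper60.MM.MAJ
import Pool.Agent.helper70.MM.FUZ
import Pool.Agent.helper70.MM.ONE
import Pool.Agent.helper77.MM.COC
import Pool.Agent.helper78.MM.MGR
import Pool.Agent.helper78.MM.NEM
import Pool.Agent.helper80.MM.FIA
import Pool.Agent.helper80.MM.FIB
import Pool.Agent.helper80.MM.SEC
import Pool.Agent.helper80.MM.SEQ
import Pool.Agent.helper80.MM.SYA
import Pool.Agent.helper80.MM.TRA
import Pool.Agent.helper84.MM.ORD

/-!
# MP_bfc607_gt, how many members of a cover may a point miss: assembly of the rows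
-/

set_option autoImplicit false

namespace Pool.Agent.MM

theorem qZMG : ZMG_stmt := ZMG (MGR (SEC SEQ)) PRJ (UNQ PRJ)

theorem top_two : TWO_stmt := TWO (IND qZMG PFS) HSH

theorem qBLD : BLD_stmt := BLD XBK

theorem qORD : ORD_stmt := ORD XBK

theorem qREZ : REZ_stmt := REZ qORD (FUZ (MAJ XBK qBLD)) (LWR XBK qBLD qORD) NEM (EXC XBK qBLD) COC

theorem top_one : ONE_stmt := ONE (FIA TRA) SYA (PTA XBK qBLD) qREZ

theorem top_three : TRE_stmt := TRE (FIB TRA) SYB (PTB XBK qBLD) qREZ

end Pool.Agent.MM
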